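import Pool.Agent.R352.E.Sys

/-!
# The theorem of Siegel and Shidlovskii over `ℚ`: algebraic independence of the values at `1`
-/

set_option autoImplicit false
set_option linter.unusedSectionVars false

open PowerSeries Finset.HasAntidiagonal

namespace Pool.Agent.E8helper65.AZ

open Pool.Agent.R352.E Pool.Agent.Y113

section

variable {σ : Type} [Fintype σ] {q : ℕ} {f : σ → ℚ⟦X⟧}

/-- a system of E-functions: the derivatives are linear combinations of the functions and `1` -/
structure Syst (q : ℕ) (f : σ → ℚ⟦X⟧) : Prop where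
  hq : 1 ≤ q
  ef : ∀ s, EF (f s)
  der : ∀ s, Sp (fun o : Option σ => o.elim 1 f) ((TQ q : ℚ⟦X⟧) * d⁄dX ℚ (f s))

/-- the monomials -/
noncomputable def mo (f : σ → ℚ⟦X⟧) (m : σ →₀ ℕ) : ℚ⟦X⟧ := ∏ i, f i ^ m i

lemma mo_zero : mo f 0 = 1 := by simp [mo]

lemma mo_add (m m' : σ →₀ ℕ) : mo f (m + m') = mo f m * mo f m' := by
  simp only [mo, Finsupp.add_apply, pow_add, Finset.prod_mul_distrib]

lemma mo_single (i : σ) : mo f (Finsupp.single i 1) = f i := by
  classical
  rw [mo, Finset.prod_eq_single i]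
  · rw [Finsupp.single_eq_same, pow_one]
  · intro j _ hj
    rw [Finsupp.single_apply, if_neg (Ne.symm hj), pow_zero]
  · intro h; exact absurd (Finset.mem_univ i) h

/-- the index set of the monomials of degree at most `n` -/
abbrev Mo (σ : Type) [Fintype σ] (n : ℕ) : Type := {m : σ →₀ ℕ // ∑ i, m i ≤ n}

lemma Mo_finite (n : ℕ) : Finite (Mo σ n) := by
  classical
  have h1 : {m : σ →₀ ℕ | ∑ i, m i ≤ n}.Finite := by
    apply (Set.finite_Iic (Finsupp.equivFunOnFinite.symm (fun _ => n) : σ →₀ ℕ)).subset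
    intro m hm i
    rw [Finsupp.equivFunOnFinite_symm_apply_apply]
    exact (Finset.single_le_sum (f := fun i => m i) (fun _ _ => Nat.zero_le _) (Finset.mem_univ i)).trans hm
  exact h1.to_subtype

noncomputable instance (n : ℕ) : Fintype (Mo σ n) := @Fintype.ofFinite _ (Mo_finite n)

/-- the family of the monomials of degree at most `n` -/
noncomputable def ym (f : σ → ℚ⟦X⟧) (n : ℕ) (m : Mo σ n) : ℚ⟦X⟧ := mo f m.1

lemma Sp_ym (n : ℕ) (m : σ →₀ ℕ) (h : ∑ i, m i ≤ n) : Sp (ym f n) (mo f m) :=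
  Sp.mem (y := ym f n) (⟨m, h⟩ : Mo σ n)

lemma Sp_mul_ym (n : ℕ) {g : ℚ⟦X⟧} (hg : Sp (ym f n) g) (i : σ) : Sp (ym f (n + 1)) (g * f i) := by
  obtain ⟨c, hc⟩ := hg
  rw [hc, Finset.sum_mul]
  refine Sp.sum _ _ fun m _ => ?_
  rw [mul_assoc]
  apply Sp.mul
  have h1 : ym f n m * f i = mo f (m.1 + Finsupp.single i 1) := by
    rw [mo_add, mo_single]; rfl
  rw [h1]
  apply Sp_ym
  have h2 : ∑ j, (m.1 + Finsupp.single i 1 : σ →₀ ℕ) j = ∑ j, m.1 j + 1 := by
    classical
    simp only [Finsupp.add_apply, Finset.sum_add_distrib]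
    congr 1
    rw [Finset.sum_eq_single i]
    · simp
    · intro x _ hx; rw [Finsupp.single_apply, if_neg hx.symm]
    · intro h; exact absurd (Finset.mem_univ i) h
  rw [h2]
  have := m.2
  omega

lemma Sp_mono (n : ℕ) {g : ℚ⟦X⟧} (hg : Sp (ym f n) g) : Sp (ym f (n + 1)) g := by
  obtain ⟨c, hc⟩ := hg
  rw [hc]
  refine Sp.sum _ _ fun m _ => ?_
  apply Sp.mul
  exact Sp_ym _ _ (m.2.trans (Nat.le_succ n))

/-- the monomials form a differential system -/
theorem der_mo (R : Syst q f) (n : ℕ) : ∀ m : σ →₀ ℕ, ∑ i, m i ≤ n →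
    Sp (ym f n) ((TQ q : ℚ⟦X⟧) * d⁄dX ℚ (mo f m)) := by
  induction n with
  | zero =>
    intro m hm
    have h0 : m = 0 := by
      ext i
      have := Finset.single_le_sum (f := fun i => m i) (fun _ _ => Nat.zero_le _) (Finset.mem_univ i)
      simp only [Finsupp.coe_zero, Pi.zero_apply]
      omega
    rw [h0, mo_zero]
    simp only [Derivation.map_one_eq_zero, mul_zero]
    exact Sp.zero
  | succ n ih =>
    intro m hm
    by_cases h0 : m = 0
    · rw [h0, mo_zero]
      simp only [Derivation.map_one_eq_zero, mul_zero]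
      exact Sp.zero
    · obtain ⟨i, hi⟩ : ∃ i, m i ≠ 0 := by
        by_contra hcon
        push Not at hcon
        exact h0 (Finsupp.ext hcon)
      obtain ⟨m', hm'⟩ : ∃ m' : σ →₀ ℕ, m = m' + Finsupp.single i 1 :=
        ⟨m - Finsupp.single i 1, (tsub_add_cancel_of_le (by
          rw [Finsupp.single_le_iff]; omega)).symm⟩
      have h2 : ∑ j, m j = ∑ j, m' j + 1 := by
        classical
        rw [hm']
        simp only [Finsupp.add_apply, Finset.sum_add_distrib]
        congr 1
        rw [Finset.sum_eq_single i]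
        · simp
        · intro x _ hx; rw [Finsupp.single_apply, if_neg hx.symm]
        · intro h; exact absurd (Finset.mem_univ i) h
      have hn : ∑ j, m' j ≤ n := by omega
      have e1 : (TQ q : ℚ⟦X⟧) * d⁄dX ℚ (mo f m) =
          ((TQ q : ℚ⟦X⟧) * d⁄dX ℚ (mo f m')) * f i + mo f m' * ((TQ q : ℚ⟦X⟧) * d⁄dX ℚ (f i)) := by
        rw [hm', mo_add, mo_single, Derivation.leibniz]
        simp only [smul_eq_mul]
        ring
      rw [e1]
      refine (Sp_mul_ym n (ih m' hn) i).add ?_
      obtain ⟨c, hc⟩ := R.der i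
      rw [hc, Finset.mul_sum]
      refine Sp.sum _ _ fun o _ => ?_
      rw [mul_left_comm]
      apply Sp.mul
      rcases o with _ | s
      · simp only [Option.elim_none, mul_one]
        exact Sp_ym _ _ (by omega)
      · simp only [Option.elim_some]
        exact Sp_mul_ym n (Sp_ym n m' hn) s

lemma mo_aeval (m : σ →₀ ℕ) (c : Polynomial ℚ) :
    MvPolynomial.aeval f (MvPolynomial.monomial m c) = c • mo f m := by
  rw [MvPolynomial.aeval_monomial, Algebra.smul_def, mo, Finsupp.prod_fintype _ _ fun i => pow_zero _]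

/-- the monomials are linearly independent over `ℚ[X]` -/
theorem ym_LI (hf : AlgebraicIndependent (Polynomial ℚ) f) (n : ℕ) :
    LinearIndependent (Polynomial ℚ) (ym f n) := by
  classical
  rw [Fintype.linearIndependent_iff]
  intro c hc s
  have h1 : MvPolynomial.aeval f (∑ m : Mo σ n, MvPolynomial.monomial m.1 (c m)) = 0 := by
    rw [map_sum, ← hc]
    exact Finset.sum_congr rfl fun m _ => mo_aeval _ _
  have h2 := (algebraicIndependent_iff.1 hf) _ h1
  have h3 := congrArg (MvPolynomial.coeff s.1) h2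
  rw [MvPolynomial.coeff_sum, MvPolynomial.coeff_zero, Finset.sum_eq_single s] at h3
  · rwa [MvPolynomial.coeff_monomial, if_pos rfl] at h3
  · intro m _ hm
    rw [MvPolynomial.coeff_monomial, if_neg]
    intro h; exact hm (Subtype.ext h)
  · intro h; exact absurd (Finset.mem_univ s) h

lemma EF_mo (R : Syst q f) (m : σ →₀ ℕ) : EF (mo f m) := EF.prod _ _ fun i _ => (R.ef i).pow _

/-- linear independence of the values of the monomials -/
theorem ym_val (R : Syst q f) (hf : AlgebraicIndependent (Polynomial ℚ) f) (n : ℕ) :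
    LinearIndependent ℚ (fun m : Mo σ n => ev 1 (mo f m.1)) := by
  classical
  set N := Fintype.card (Mo σ n) with hN
  let e : Fin N ≃ Mo σ n := (Fintype.equivFin _).symm
  set y : Fin N → ℚ⟦X⟧ := fun i => ym f n (e i) with hy
  obtain ⟨C, hC, h1, h2⟩ := EF.common (y := y) (fun i => EF_mo R (e i).1)
  have hSys : ESys q C y :=
    { one_le := hC
      hq := R.hq
      size := h1
      den := h2
      der := by
        have h3 := fun i => der_mo R n (e i).1 (e i).2
        choose B hB using h3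
        refine ⟨fun i j => B i (e j), fun i => ?_⟩
        have h4 := hB i
        rw [← Equiv.sum_comp e] at h4
        exact h4 }
  have hz : ∑ i, (0 : σ →₀ ℕ) i ≤ n := by simp
  have h0 : e (e.symm ⟨0, hz⟩) = (⟨0, hz⟩ : Mo σ n) := e.apply_symm_apply _
  have h3 := E_lin hSys (e.symm ⟨0, hz⟩) (by
    rw [hy]
    simp only [h0]
    exact mo_zero) ((ym_LI hf n).comp e e.injective)
  have h4 := h3.comp e.symm e.symm.injective
  convert h4 using 1
  funext s
  simp only [Function.comp_apply, hy, Equiv.apply_symm_apply]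
  rfl

lemma ev_mo (R : Syst q f) (m : σ →₀ ℕ) : ev 1 (mo f m) = ∏ i, ev 1 (f i) ^ m i := by
  rw [mo, Cv.ev_prod one_pos _ _ (fun i _ => (R.ef i).cv.pow one_pos _)]
  exact Finset.prod_congr rfl fun i _ => (R.ef i).cv.ev_pow one_pos _

/-- **Algebraic independence of the values at `1`.** -/
theorem alg_ev (R : Syst q f) (hf : AlgebraicIndependent (Polynomial ℚ) f) :
    AlgebraicIndependent ℚ (fun s => ev 1 (f s)) := by
  classical
  rw [algebraicIndependent_iff]
  intro p hp
  obtain ⟨n, hn⟩ : ∃ n, n = ∑ s ∈ p.support, ∑ i, s i := ⟨_, rfl⟩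
  have hmem : ∀ s ∈ p.support, ∑ i, s i ≤ n := by
    intro s hs
    rw [hn]
    exact Finset.single_le_sum (f := fun s : σ →₀ ℕ => ∑ i, s i) (fun _ _ => Nat.zero_le _) hs
  have hLI := Fintype.linearIndependent_iff.1 (ym_val R hf n) (fun s => MvPolynomial.coeff s.1 p) (by
      have h1 : ∑ s : Mo σ n, MvPolynomial.coeff s.1 p • ev 1 (mo f s.1) =
          ∑ s ∈ (Finset.univ : Finset (Mo σ n)).map ⟨Subtype.val, Subtype.val_injective⟩,
            MvPolynomial.coeff s p • ev 1 (mo f s) := by
        rw [Finset.sum_map]; rfl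
      rw [h1, ← hp]
      have h2 : p.support ⊆ (Finset.univ : Finset (Mo σ n)).map ⟨Subtype.val, Subtype.val_injective⟩ := by
        intro s hs
        rw [Finset.mem_map]
        exact ⟨⟨s, hmem s hs⟩, Finset.mem_univ _, rfl⟩
      rw [← Finset.sum_subset h2 (fun s _ hs => by rw [MvPolynomial.notMem_support_iff.1 hs, zero_smul])]
      conv_rhs => rw [MvPolynomial.as_sum p, map_sum]
      refine Finset.sum_congr rfl fun s _ => ?_
      rw [MvPolynomial.aeval_monomial, ev_mo R, Finsupp.prod_fintype _ _ (fun i => pow_zero _), Algebra.smul_def])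
  ext s
  rw [MvPolynomial.coeff_zero]
  by_cases hs : s ∈ p.support
  · exact hLI ⟨s, hmem s hs⟩
  · exact MvPolynomial.notMem_support_iff.1 hs

end

end Pool.Agent.E8helper65.AZ
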