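import Pool.Agent.E8helper42.AZ.Stm
import Pool.Agent.E8helper65.AZ.SSGen

/-!
# The theorem of Siegel and Shidlovskii for the functions of the project
-/

set_option autoImplicit false
set_option linter.unusedSectionVars false

open PowerSeries Finset.HasAntidiagonal

namespace Pool.Agent.E8helper65.AZ

open Pool.Agent.R352.E Pool.Agent.Y113 Pool.Agent.E8helper42.AZ

lemma cf_ser (c : ℕ → ℚ) (t : ℚ) (j m : ℕ) : cf m (ser c t j) = (m : ℚ) ^ j * c m * t ^ m := by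
  rw [cf, ser, coeff_mk]
  have : (m.factorial : ℚ) ≠ 0 := by exact_mod_cast m.factorial_ne_zero
  field_simp

lemma EF_ser {c : ℕ → ℚ} (hc : EFc c) (t : ℚ) (j : ℕ) : EF (ser c t j) := by
  obtain ⟨C, hC, h1, h2⟩ := hc
  set D : ℝ := 2 ^ j * C * ((|(t : ℝ)| + 1) * t.den) with hD
  have hC0 : (0 : ℝ) < C := by linarith
  have hden : (1 : ℝ) ≤ t.den := by exact_mod_cast t.den_pos
  have hta : (0 : ℝ) ≤ |(t : ℝ)| := abs_nonneg _
  have h2j : (1 : ℝ) ≤ 2 ^ j := one_le_pow₀ (by norm_num)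
  have hx1 : (1 : ℝ) ≤ (|(t : ℝ)| + 1) * t.den := one_le_mul_of_one_le_of_one_le (by linarith) hden
  have hD1 : 1 ≤ D := one_le_mul_of_one_le_of_one_le (one_le_mul_of_one_le_of_one_le h2j hC) hx1
  have hmj : ∀ m : ℕ, (m : ℝ) ^ j ≤ (2 ^ j) ^ m := by
    intro m
    have h3 : (m : ℝ) ≤ 2 ^ m := le_two_pow' m
    calc (m : ℝ) ^ j ≤ (2 ^ m) ^ j := pow_le_pow_left₀ (by positivity) h3 j
      _ = (2 ^ j) ^ m := by rw [← pow_mul, ← pow_mul, mul_comm]
  refine ⟨D, hD1, fun m => ?_, fun m => ?_⟩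
  · rw [cf_ser]
    push_cast
    rw [abs_mul, abs_mul, abs_pow, abs_pow, Nat.abs_cast]
    have h4 : |(t : ℝ)| ^ m ≤ ((|(t : ℝ)| + 1) * t.den) ^ (m + 1) := by
      calc |(t : ℝ)| ^ m ≤ ((|(t : ℝ)| + 1) * t.den) ^ m := by
            apply pow_le_pow_left₀ hta
            nlinarith
        _ ≤ _ := pow_le_pow_right₀ hx1 (by omega)
    calc (m : ℝ) ^ j * |((c m : ℚ) : ℝ)| * |(t : ℝ)| ^ m ≤
          (2 ^ j) ^ (m + 1) * C ^ (m + 1) * ((|(t : ℝ)| + 1) * t.den) ^ (m + 1) := by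
          refine mul_le_mul (mul_le_mul ((hmj m).trans (pow_le_pow_right₀ h2j (by omega))) (h1 m)
            (abs_nonneg _) (by positivity)) h4 (by positivity) (by positivity)
      _ = D ^ (m + 1) := by rw [hD, mul_pow (2 ^ j * C), mul_pow (2 ^ j)]
  · obtain ⟨d, hd, hdC, hdi⟩ := h2 m
    refine ⟨d * t.den ^ m, Nat.mul_pos hd (pow_pos t.den_pos _), ?_, fun i hi => ?_⟩
    · push_cast
      have h5 : (t.den : ℝ) ^ m ≤ ((|(t : ℝ)| + 1) * t.den) ^ (m + 1) := by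
        calc (t.den : ℝ) ^ m ≤ ((|(t : ℝ)| + 1) * t.den) ^ m := by
              apply pow_le_pow_left₀ (by positivity)
              nlinarith
          _ ≤ _ := pow_le_pow_right₀ hx1 (by omega)
      calc (d : ℝ) * (t.den : ℝ) ^ m ≤ C ^ (m + 1) * ((|(t : ℝ)| + 1) * t.den) ^ (m + 1) :=
            mul_le_mul hdC h5 (by positivity) (by positivity)
        _ ≤ (2 ^ j * C) ^ (m + 1) * ((|(t : ℝ)| + 1) * t.den) ^ (m + 1) := by
            apply mul_le_mul_of_nonneg_right _ (by positivity)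
            exact pow_le_pow_left₀ hC0.le (le_mul_of_one_le_left hC0.le h2j) _
        _ = D ^ (m + 1) := by rw [hD, mul_pow (2 ^ j * C)]
    · obtain ⟨z, hz⟩ := hdi i hi
      refine ⟨(i : ℤ) ^ j * z * ((t.den : ℤ) ^ (m - i) * t.num ^ i), ?_⟩
      rw [cf_ser]
      push_cast
      rw [← hz]
      have h6 : (t.den : ℚ) ^ m * t ^ i = (t.den : ℚ) ^ (m - i) * (t.num : ℚ) ^ i := by
        have h7 : (t.den : ℚ) ^ m = (t.den : ℚ) ^ (m - i) * (t.den : ℚ) ^ i := by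
          rw [← pow_add]; congr 1; omega
        have h8 : (t.den : ℚ) * t = t.num := Rat.den_mul_eq_num t
        rw [h7, mul_assoc, ← mul_pow, h8]
      calc (d : ℚ) * (t.den : ℚ) ^ m * ((i : ℚ) ^ j * c i * t ^ i) =
          (i : ℚ) ^ j * (d * c i) * ((t.den : ℚ) ^ m * t ^ i) := by ring
        _ = _ := by rw [h6]

lemma theta_ser (c : ℕ → ℚ) (t : ℚ) (j : ℕ) : (X : ℚ⟦X⟧) * d⁄dX ℚ (ser c t j) = ser c t (j + 1) := by
  ext m
  rcases m with _ | m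
  · simp [ser]
  · rw [coeff_succ_X_mul, coeff_derivative, ser, coeff_mk, ser, coeff_mk, pow_succ]
    push_cast
    ring

lemma ser_four_zero (c : ℕ → ℚ) (t : ℚ) : coeff 0 (ser c t 4) = 0 := by simp [ser]

/-- the recurrence, in terms of the series -/
lemma ser_four (c : ℕ → ℚ) (t e : ℚ)
    (hrec : ∀ n : ℕ, ((n : ℚ) + 2) ^ 3 * c (n + 2) - cP ((n : ℚ) + 1) * c (n + 1) + ((n : ℚ) + 1) ^ 3 * c n = 0)
    (he : c 1 = 5 * c 0 + e) :
    ser c t 4 = C t * (X * (34 * ser c t 3 + 51 * ser c t 2 + 27 * ser c t 1 + 5 * ser c t 0)) -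
      C (t ^ 2) * (X * (X * (ser c t 2 + 2 * ser c t 1 + ser c t 0))) + C (e * t) * X := by
  have hnat : ∀ (n : ℕ) (g : ℚ⟦X⟧) (m : ℕ), coeff m ((n : ℚ⟦X⟧) * g) = (n : ℚ) * coeff m g := by
    intro n g m
    rw [← nsmul_eq_mul, map_nsmul, nsmul_eq_mul]
  have h34 : ∀ (g : ℚ⟦X⟧) (m : ℕ), coeff m (34 * g) = 34 * coeff m g := fun g m => by
    simpa using hnat 34 g m
  have h51 : ∀ (g : ℚ⟦X⟧) (m : ℕ), coeff m (51 * g) = 51 * coeff m g := fun g m => by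
    simpa using hnat 51 g m
  have h27 : ∀ (g : ℚ⟦X⟧) (m : ℕ), coeff m (27 * g) = 27 * coeff m g := fun g m => by
    simpa using hnat 27 g m
  have h5 : ∀ (g : ℚ⟦X⟧) (m : ℕ), coeff m (5 * g) = 5 * coeff m g := fun g m => by
    simpa using hnat 5 g m
  have h2 : ∀ (g : ℚ⟦X⟧) (m : ℕ), coeff m (2 * g) = 2 * coeff m g := fun g m => by
    simpa using hnat 2 g m
  ext m
  rcases m with _ | m
  · simp [ser]
  rcases m with _ | m
  · rw [map_add, map_sub, coeff_C_mul, coeff_C_mul, coeff_C_mul, zero_add, coeff_one_X]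
    have e1 : ∀ g : ℚ⟦X⟧, coeff 1 (X * g) = coeff 0 g := fun g => coeff_succ_X_mul 0 g
    rw [e1, e1, map_add, map_add, map_add, h34, h51, h27, h5]
    have e2 : ∀ g : ℚ⟦X⟧, coeff 0 (X * g) = 0 := fun g => by simp
    rw [e2]
    simp only [ser, coeff_mk]
    rw [he]
    simp
    ring
  · have hX : coeff (m + 1 + 1) (X : ℚ⟦X⟧) = 0 := by
      rw [coeff_X, if_neg (by omega)]
    rw [map_add, map_sub, coeff_C_mul, coeff_C_mul, coeff_C_mul, hX, coeff_succ_X_mul,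
      coeff_succ_X_mul, coeff_succ_X_mul, map_add, map_add, map_add, map_add, map_add, h34, h51, h27,
      h5, h2]
    simp only [ser, coeff_mk]
    have hr := hrec m
    rw [cP] at hr
    have hf1 : (((m + 1).factorial : ℕ) : ℚ) = (m + 1) * m.factorial := by
      rw [Nat.factorial_succ]; push_cast; ring
    have hf2 : (((m + 1 + 1).factorial : ℕ) : ℚ) = (m + 2) * ((m + 1) * m.factorial) := by
      rw [Nat.factorial_succ, Nat.factorial_succ]; push_cast; ring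
    rw [hf1, hf2]
    have hf0 : (m.factorial : ℚ) ≠ 0 := by exact_mod_cast m.factorial_ne_zero
    have hm1 : (m : ℚ) + 1 ≠ 0 := by positivity
    have hm2 : (m : ℚ) + 2 ≠ 0 := by positivity
    push_cast
    have hr' : ((m : ℚ) + 2) ^ 3 * c (m + 1 + 1) = (34 * ((m : ℚ) + 1) ^ 3 + 51 * ((m : ℚ) + 1) ^ 2 +
        27 * ((m : ℚ) + 1) + 5) * c (m + 1) - ((m : ℚ) + 1) ^ 3 * c m := by
      linear_combination hr
    have hr2 : ((m : ℚ) + 1 + 1) ^ 4 * c (m + 1 + 1) = ((m : ℚ) + 2) * ((34 * ((m : ℚ) + 1) ^ 3 +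
        51 * ((m : ℚ) + 1) ^ 2 + 27 * ((m : ℚ) + 1) + 5) * c (m + 1) - ((m : ℚ) + 1) ^ 3 * c m) := by
      rw [← hr']; ring
    rw [hr2]
    field_simp
    ring

section syst

variable {σ : Type} [Fintype σ] {f : σ → ℚ⟦X⟧}

lemma Sp.int {ι : Type} [Fintype ι] {y : ι → ℚ⟦X⟧} {g : ℚ⟦X⟧} (z : ℤ) {u : ℚ} (hu : u = z)
    (hg : Sp y g) : Sp y (PowerSeries.C u * g) := by
  have h := hg.mul (Polynomial.C z)
  rw [ps_C] at h
  have e : (PowerSeries.C u : ℚ⟦X⟧) = ((z : ℤ) : ℚ⟦X⟧) := by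
    rw [hu]
    simp
  rw [e]
  exact h

lemma Sp.X {ι : Type} [Fintype ι] {y : ι → ℚ⟦X⟧} {g : ℚ⟦X⟧} (hg : Sp y g) :
    Sp y (PowerSeries.X * g) := by
  have h := hg.mul Polynomial.X
  rwa [ps_X] at h

end syst

theorem t_SS : S_SS := by
  classical
  intro a b hab ha hb T hT hind
  obtain ⟨q, hq⟩ : ∃ q : ℕ, q = (∏ t ∈ T, t.den) ^ 2 := ⟨_, rfl⟩
  have hP : 0 < ∏ t ∈ T, t.den := Finset.prod_pos fun t _ => t.den_pos
  have hq1 : 1 ≤ q := by rw [hq]; exact Nat.pos_of_ne_zero (pow_ne_zero _ hP.ne')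
  -- integrality
  have hint1 : ∀ t ∈ T, ∃ z : ℤ, (q : ℚ) * t = z := by
    intro t ht
    refine ⟨(∏ t ∈ T, t.den : ℕ) * ((∏ s ∈ T.erase t, s.den : ℕ) * t.num), ?_⟩
    have h1 : (∏ s ∈ T, s.den : ℕ) = t.den * ∏ s ∈ T.erase t, s.den :=
      (Finset.mul_prod_erase T (fun s => s.den) ht).symm
    rw [hq]
    push_cast
    rw [sq]
    have h2 : ((∏ s ∈ T, (s.den : ℚ))) * t = (∏ s ∈ T.erase t, (s.den : ℚ)) * t.num := by
      have h3 : (∏ s ∈ T, (s.den : ℚ)) = t.den * ∏ s ∈ T.erase t, (s.den : ℚ) := by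
        exact_mod_cast congrArg (Nat.cast (R := ℚ)) h1
      rw [h3]
      have h4 : (t.den : ℚ) * t = t.num := Rat.den_mul_eq_num t
      rw [← h4]; ring
    rw [mul_assoc, h2]
  have hint2 : ∀ t ∈ T, ∃ z : ℤ, (q : ℚ) * t ^ 2 = z := by
    intro t ht
    refine ⟨((∏ s ∈ T.erase t, s.den : ℕ) * t.num) ^ 2, ?_⟩
    have h1 : (∏ s ∈ T, s.den : ℕ) = t.den * ∏ s ∈ T.erase t, s.den :=
      (Finset.mul_prod_erase T (fun s => s.den) ht).symm
    have h2 : ((∏ s ∈ T, (s.den : ℚ))) * t = (∏ s ∈ T.erase t, (s.den : ℚ)) * t.num := by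
      have h3 : (∏ s ∈ T, (s.den : ℚ)) = t.den * ∏ s ∈ T.erase t, (s.den : ℚ) := by
        exact_mod_cast congrArg (Nat.cast (R := ℚ)) h1
      rw [h3]
      have h4 : (t.den : ℚ) * t = t.num := Rat.den_mul_eq_num t
      rw [← h4]; ring
    rw [hq]
    push_cast
    rw [← mul_pow, h2]
  have hTQ : ∀ g : ℚ⟦X⟧, (TQ q : ℚ⟦X⟧) * d⁄dX ℚ g = C (q : ℚ) * (X * d⁄dX ℚ g) := by
    intro g
    have h1 : (TQ q : ℚ⟦X⟧) = (q : ℚ⟦X⟧) * X := TQ_eq
    rw [h1, mul_assoc]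
    congr 1
  set y : Option ((T × Fin 4) ⊕ (T × Fin 4)) → ℚ⟦X⟧ := fun o => o.elim 1 (fam a b T) with hy
  have hy1 : Sp y 1 := Sp.mem (y := y) none
  have hya : ∀ (t : T) (j : Fin 4), Sp y (ser a t j) := fun t j =>
    Sp.mem (y := y) (some (Sum.inl (t, j)))
  have hyb : ∀ (t : T) (j : Fin 4), Sp y (ser b t j) := fun t j =>
    Sp.mem (y := y) (some (Sum.inr (t, j)))
  -- the last derivative
  have hlast : ∀ (c : ℕ → ℚ) (t : T) (e : ℤ), (∀ j : Fin 4, Sp y (ser c t j)) →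
      (∀ n : ℕ, ((n : ℚ) + 2) ^ 3 * c (n + 2) - cP ((n : ℚ) + 1) * c (n + 1) + ((n : ℚ) + 1) ^ 3 * c n = 0) →
      c 1 = 5 * c 0 + e → Sp y (C (q : ℚ) * ser c t 4) := by
    intro c t e hs hrec he
    obtain ⟨z1, hz1⟩ := hint1 t.1 t.2
    obtain ⟨z2, hz2⟩ := hint2 t.1 t.2
    have hN : ∀ (n : ℕ) {g : ℚ⟦X⟧}, Sp y g → Sp y ((n : ℚ⟦X⟧) * g) := by
      intro n g hg
      have h := Sp.int (n : ℤ) (u := (n : ℚ)) (by push_cast; rfl) hg
      have e : (PowerSeries.C (n : ℚ) : ℚ⟦X⟧) = (n : ℚ⟦X⟧) := by simp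
      rwa [e] at h
    have hs0 := hs 0
    have hs1 := hs 1
    have hs2 := hs 2
    have hs3 := hs 3
    have e1 : Sp y (34 * ser c t 3 + 51 * ser c t 2 + 27 * ser c t 1 + 5 * ser c t 0) := by
      have k3 := hN 34 hs3
      have k2 := hN 51 hs2
      have k1 := hN 27 hs1
      have k0 := hN 5 hs0
      exact_mod_cast ((k3.add k2).add k1).add k0
    have e2 : Sp y (ser c t 2 + 2 * ser c t 1 + ser c t 0) := by
      have k1 := hN 2 hs1
      exact_mod_cast (hs2.add k1).add hs0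
    have e3 : C (q : ℚ) * ser c t 4 =
        C ((q : ℚ) * t) * (X * (34 * ser c t 3 + 51 * ser c t 2 + 27 * ser c t 1 + 5 * ser c t 0)) +
        C (-((q : ℚ) * (t : ℚ) ^ 2)) * (X * (X * (ser c t 2 + 2 * ser c t 1 + ser c t 0))) +
        C ((e : ℚ) * ((q : ℚ) * t)) * (X * 1) := by
      rw [ser_four c t e hrec he]
      simp only [map_mul, map_neg, map_pow]
      ring
    rw [e3]
    refine ((Sp.int z1 hz1 (Sp.X e1)).add (Sp.int (-z2) (by rw [hz2]; push_cast; ring)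
      (Sp.X (Sp.X e2)))).add (Sp.int (e * z1) (by rw [hz1]; push_cast; ring) (Sp.X hy1))
  have hder : ∀ (c : ℕ → ℚ) (t : T) (e : ℤ), (∀ j : Fin 4, Sp y (ser c t j)) →
      (∀ n : ℕ, ((n : ℚ) + 2) ^ 3 * c (n + 2) - cP ((n : ℚ) + 1) * c (n + 1) + ((n : ℚ) + 1) ^ 3 * c n = 0) →
      c 1 = 5 * c 0 + e → ∀ j : Fin 4, Sp y ((TQ q : ℚ⟦X⟧) * d⁄dX ℚ (ser c t j)) := by
    intro c t e hs hrec he j
    rw [hTQ, theta_ser]
    by_cases hj : (j : ℕ) + 1 < 4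
    · have := Sp.int (q : ℤ) (u := (q : ℚ)) (by push_cast; rfl) (hs ⟨(j : ℕ) + 1, hj⟩)
      exact this
    · have hj4 : (j : ℕ) + 1 = 4 := by have := j.2; omega
      rw [hj4]
      exact hlast c t e hs hrec he
  have hsys : Syst q (fam a b T) :=
    { hq := hq1
      ef := by
        rintro (⟨t, j⟩ | ⟨t, j⟩)
        · exact EF_ser ha _ _
        · exact EF_ser hb _ _
      der := by
        rintro (⟨t, j⟩ | ⟨t, j⟩)
        · exact hder a t 0 (hya t) hab.rec_a (by rw [hab.a0, hab.a1]; norm_num) j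
        · exact hder b t 6 (hyb t) hab.rec_b (by rw [hab.b0, hab.b1]; norm_num) j }
  have h := alg_ev hsys hind
  convert h using 1
  funext s
  have hev : ∀ (c : ℕ → ℚ) (t : ℚ) (j : ℕ), val c t j = ev 1 (ser c t j) := by
    intro c t j
    rw [val, ev]
    refine tsum_congr fun n => ?_
    rw [ser, coeff_mk]
    push_cast
    rw [div_one, one_pow, mul_one]
  rcases s with ⟨t, j⟩ | ⟨t, j⟩
  · exact hev a t j
  · exact hev b t j

end Pool.Agent.E8helper65.AZ
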